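import Pool.Agent.W811.LW.Stm

set_option autoImplicit false
open Finset Filter Topology
open scoped ENNReal

namespace Pool.Agent.W512.LW

open Pool.Agent.W811.LW

noncomputable def FF (G : ℕ) (α : ℝ) (j t : ℕ) (β : ℝ) : ℝ≥0∞ := FV G α j t β + FW G α j t β

noncomputable def Phi (G : ℕ) (α : ℝ) (w : ℕ → ℝ) (n : ℕ) (β : ℝ) : ℝ≥0∞ :=
  ∑ j ∈ range (n + 1), ENNReal.ofReal (w (n + j)) * FF G α j (n - j) β

lemma two_24 (a b m : ℝ≥0∞) :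
    ((1 / 48) * a + (1 / 48) * b + m) + ((1 / 48) * a + (1 / 48) * b + m)
      = (1 / 24) * (a + b) + 2 * m := by
  have h : (1 / 24 : ℝ≥0∞) = 2 * (1 / 48) := by
    rw [show (48 : ℝ≥0∞) = 2 * 24 by norm_num, one_div, one_div,
      ENNReal.mul_inv (by norm_num) (by norm_num), ← mul_assoc,
      ENNReal.mul_inv_cancel (by norm_num) (by norm_num), one_mul]
  rw [h]; ring

/-- vertical steps -/
lemma vert {G : ℕ} {c0 α : ℝ} {M1 M3 : ℝ}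
    (hbad : BAD c0 α)
    (H1 : ∀ (α β : ℝ) (j t : ℕ), BAD c0 α → BA ((G : ℝ) ^ 4) (j + t) β →
      ∑ d ∈ range ((G ^ 4) ^ 2),
        FV G α j (t + 1) (β + (d : ℝ) / ((G : ℝ) ^ 4) ^ (2 * (j + t) + 2))
      ≤ (((G ^ 4) ^ 2 : ℕ) : ℝ≥0∞) *
        ((1 / 48) * FV G α j t β + (1 / 48) * FW G α j t β + ENNReal.ofReal M1))
    (H3 : ∀ (α β : ℝ) (j t : ℕ), BAD c0 α → BA ((G : ℝ) ^ 4) (j + t) β →
      ∑ d ∈ range ((G ^ 4) ^ 2),
        FW G α j (t + 1) (β + (d : ℝ) / ((G : ℝ) ^ 4) ^ (2 * (j + t) + 2))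
      ≤ (((G ^ 4) ^ 2 : ℕ) : ℝ≥0∞) *
        ((1 / 48) * FV G α j t β + (1 / 48) * FW G α j t β + ENNReal.ofReal M3))
    {m : ℝ≥0∞} (hm1 : ENNReal.ofReal M1 ≤ m) (hm3 : ENNReal.ofReal M3 ≤ m)
    {n : ℕ} {β : ℝ} (hBA : BA ((G : ℝ) ^ 4) n β) {j : ℕ} (hj : j ≤ n) :
    ∑ d ∈ range ((G ^ 4) ^ 2),
        FF G α j (n + 1 - j) (β + (d : ℝ) / ((G : ℝ) ^ 4) ^ (2 * n + 2))
      ≤ (((G ^ 4) ^ 2 : ℕ) : ℝ≥0∞) * ((1 / 24) * FF G α j (n - j) β + 2 * m) := by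
  have e : j + (n - j) = n := by omega
  have e2 : n + 1 - j = (n - j) + 1 := by omega
  have a1 := H1 α β j (n - j) hbad (by rw [e]; exact hBA)
  have a3 := H3 α β j (n - j) hbad (by rw [e]; exact hBA)
  rw [e] at a1 a3
  rw [e2]
  simp only [FF]
  rw [Finset.sum_add_distrib]
  refine (add_le_add a1 a3).trans ?_
  rw [← mul_add]
  refine mul_le_mul_right ?_ _
  rw [← two_24]
  gcongr

/-- horizontal step -/
lemma horiz {G : ℕ} {c0 α : ℝ} {M1 M3 : ℝ}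
    (hbad : BAD c0 α)
    (H1 : ∀ (α β : ℝ) (j : ℕ), BAD c0 α → BA ((G : ℝ) ^ 4) j β →
      ∑ d ∈ range ((G ^ 4) ^ 2), FV G α (j + 1) 0 (β + (d : ℝ) / ((G : ℝ) ^ 4) ^ (2 * j + 2))
      ≤ (((G ^ 4) ^ 2 : ℕ) : ℝ≥0∞) *
        ((1 / 48) * FV G α j 0 β + (1 / 48) * FW G α j 0 β + ENNReal.ofReal M1))
    (H3 : ∀ (α β : ℝ) (j : ℕ), BAD c0 α → BA ((G : ℝ) ^ 4) j β →
      ∑ d ∈ range ((G ^ 4) ^ 2), FW G α (j + 1) 0 (β + (d : ℝ) / ((G : ℝ) ^ 4) ^ (2 * j + 2))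
      ≤ (((G ^ 4) ^ 2 : ℕ) : ℝ≥0∞) *
        ((1 / 48) * FV G α j 0 β + (1 / 48) * FW G α j 0 β + ENNReal.ofReal M3))
    {m : ℝ≥0∞} (hm1 : ENNReal.ofReal M1 ≤ m) (hm3 : ENNReal.ofReal M3 ≤ m)
    {n : ℕ} {β : ℝ} (hBA : BA ((G : ℝ) ^ 4) n β) :
    ∑ d ∈ range ((G ^ 4) ^ 2),
        FF G α (n + 1) 0 (β + (d : ℝ) / ((G : ℝ) ^ 4) ^ (2 * n + 2))
      ≤ (((G ^ 4) ^ 2 : ℕ) : ℝ≥0∞) * ((1 / 24) * FF G α n 0 β + 2 * m) := by
  have a1 := H1 α β n hbad hBA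
  have a3 := H3 α β n hbad hBA
  simp only [FF]
  rw [Finset.sum_add_distrib]
  refine (add_le_add a1 a3).trans ?_
  rw [← mul_add]
  refine mul_le_mul_right ?_ _
  rw [← two_24]
  gcongr

/-- the averaged potential -/
lemma step {G : ℕ} {α : ℝ} {w : ℕ → ℝ} (hw0 : ∀ l, 0 ≤ w l) (hw2 : ∀ l, w (l + 1) ≤ 2 * w l)
    {m : ℝ≥0∞} {Mw : ℝ} (hMw : ∀ n : ℕ, ∑ j ∈ range (n + 1), w (n + j) ≤ Mw)
    {n : ℕ} {β : ℝ}
    (hv : ∀ j ≤ n, ∑ d ∈ range ((G ^ 4) ^ 2),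
        FF G α j (n + 1 - j) (β + (d : ℝ) / ((G : ℝ) ^ 4) ^ (2 * n + 2))
      ≤ (((G ^ 4) ^ 2 : ℕ) : ℝ≥0∞) * ((1 / 24) * FF G α j (n - j) β + 2 * m))
    (hh : ∑ d ∈ range ((G ^ 4) ^ 2),
        FF G α (n + 1) 0 (β + (d : ℝ) / ((G : ℝ) ^ 4) ^ (2 * n + 2))
      ≤ (((G ^ 4) ^ 2 : ℕ) : ℝ≥0∞) * ((1 / 24) * FF G α n 0 β + 2 * m)) :
    ∑ d ∈ range ((G ^ 4) ^ 2), Phi G α w (n + 1) (β + (d : ℝ) / ((G : ℝ) ^ 4) ^ (2 * n + 2))
      ≤ (((G ^ 4) ^ 2 : ℕ) : ℝ≥0∞) *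
        ((1 / 4) * Phi G α w n β + 12 * m * ENNReal.ofReal Mw) := by
  set Q : ℝ≥0∞ := (((G ^ 4) ^ 2 : ℕ) : ℝ≥0∞) with hQ
  set g : ℕ → ℝ≥0∞ := fun j => ENNReal.ofReal (w (n + j)) *
    ((1 / 24) * FF G α j (n - j) β + 2 * m) with hg
  have hgsum : ∑ j ∈ range (n + 1), g j
      ≤ (1 / 24) * Phi G α w n β + 2 * m * ENNReal.ofReal Mw := by
    have : ∑ j ∈ range (n + 1), g j = (1 / 24) * Phi G α w n β
        + 2 * m * ∑ j ∈ range (n + 1), ENNReal.ofReal (w (n + j)) := by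
      simp only [hg, Phi, Finset.mul_sum, ← Finset.sum_add_distrib]
      refine Finset.sum_congr rfl fun j _ => ?_
      ring
    rw [this]
    have h2 : ∑ j ∈ range (n + 1), ENNReal.ofReal (w (n + j)) ≤ ENNReal.ofReal Mw := by
      rw [← ENNReal.ofReal_sum_of_nonneg (fun j _ => hw0 _)]
      exact ENNReal.ofReal_le_ofReal (hMw n)
    gcongr
  have hsplit : ∀ β' : ℝ, Phi G α w (n + 1) β' =
      ∑ j ∈ range (n + 1), ENNReal.ofReal (w (n + 1 + j)) * FF G α j (n + 1 - j) β'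
        + ENNReal.ofReal (w (n + 1 + (n + 1))) * FF G α (n + 1) 0 β' := by
    intro β'
    rw [Phi, Finset.sum_range_succ, Nat.sub_self]
  have hA : ∑ d ∈ range ((G ^ 4) ^ 2), ∑ j ∈ range (n + 1),
      ENNReal.ofReal (w (n + 1 + j)) * FF G α j (n + 1 - j)
        (β + (d : ℝ) / ((G : ℝ) ^ 4) ^ (2 * n + 2)) ≤ Q * (2 * ∑ j ∈ range (n + 1), g j) := by
    rw [Finset.sum_comm, Finset.mul_sum, Finset.mul_sum]
    refine Finset.sum_le_sum fun j hj => ?_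
    have hj' : j ≤ n := by simpa [Nat.lt_succ_iff] using hj
    rw [← Finset.mul_sum]
    have w1 : ENNReal.ofReal (w (n + 1 + j)) ≤ 2 * ENNReal.ofReal (w (n + j)) := by
      have := hw2 (n + j)
      rw [show n + j + 1 = n + 1 + j by omega] at this
      calc ENNReal.ofReal (w (n + 1 + j)) ≤ ENNReal.ofReal (2 * w (n + j)) :=
            ENNReal.ofReal_le_ofReal this
        _ = 2 * ENNReal.ofReal (w (n + j)) := by
            rw [ENNReal.ofReal_mul (by norm_num)]; norm_num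
    calc _ ≤ (2 * ENNReal.ofReal (w (n + j))) *
          (Q * ((1 / 24) * FF G α j (n - j) β + 2 * m)) := mul_le_mul' w1 (hv j hj')
      _ = Q * (2 * g j) := by simp only [hg]; ring
  have hB : ∑ d ∈ range ((G ^ 4) ^ 2), ENNReal.ofReal (w (n + 1 + (n + 1))) *
      FF G α (n + 1) 0 (β + (d : ℝ) / ((G : ℝ) ^ 4) ^ (2 * n + 2))
      ≤ Q * (4 * ∑ j ∈ range (n + 1), g j) := by
    rw [← Finset.mul_sum]
    have w1 : ENNReal.ofReal (w (n + 1 + (n + 1))) ≤ 4 * ENNReal.ofReal (w (n + n)) := by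
      have a1 := hw2 (n + n)
      have a2 := hw2 (n + n + 1)
      rw [show n + n + 1 + 1 = n + 1 + (n + 1) by omega] at a2
      calc ENNReal.ofReal (w (n + 1 + (n + 1))) ≤ ENNReal.ofReal (4 * w (n + n)) :=
            ENNReal.ofReal_le_ofReal (by linarith)
        _ = 4 * ENNReal.ofReal (w (n + n)) := by
            rw [ENNReal.ofReal_mul (by norm_num)]; norm_num
    have hn : g n ≤ ∑ j ∈ range (n + 1), g j :=
      Finset.single_le_sum (f := g) (fun _ _ => bot_le) (by simp)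
    calc _ ≤ (4 * ENNReal.ofReal (w (n + n))) *
          (Q * ((1 / 24) * FF G α n 0 β + 2 * m)) := mul_le_mul' w1 hh
      _ = Q * (4 * g n) := by simp only [hg, Nat.sub_self]; ring
      _ ≤ _ := by gcongr
  calc _ = ∑ d ∈ range ((G ^ 4) ^ 2), (∑ j ∈ range (n + 1),
      ENNReal.ofReal (w (n + 1 + j)) * FF G α j (n + 1 - j)
        (β + (d : ℝ) / ((G : ℝ) ^ 4) ^ (2 * n + 2)) + ENNReal.ofReal (w (n + 1 + (n + 1))) *
      FF G α (n + 1) 0 (β + (d : ℝ) / ((G : ℝ) ^ 4) ^ (2 * n + 2))) :=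
        Finset.sum_congr rfl fun d _ => hsplit _
    _ ≤ Q * (2 * ∑ j ∈ range (n + 1), g j) + Q * (4 * ∑ j ∈ range (n + 1), g j) := by
        rw [Finset.sum_add_distrib]; exact add_le_add hA hB
    _ = Q * (6 * ∑ j ∈ range (n + 1), g j) := by ring
    _ ≤ Q * (6 * ((1 / 24) * Phi G α w n β + 2 * m * ENNReal.ofReal Mw)) := by gcongr
    _ = _ := by
        have h : (1 / 4 : ℝ≥0∞) = 6 * (1 / 24) := by
          rw [show (24 : ℝ≥0∞) = 6 * 4 by norm_num, one_div, one_div,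
            ENNReal.mul_inv (by norm_num) (by norm_num), ← mul_assoc,
            ENNReal.mul_inv_cancel (by norm_num) (by norm_num), one_mul]
        rw [h]; ring

/-- a good digit -/
lemma pick (hBAK : BAK) {G : ℕ} (hG : 1000 ≤ G) {α : ℝ} {w : ℕ → ℝ} {n : ℕ} {β : ℝ}
    (hBA : BA ((G : ℝ) ^ 4) n β) {B c : ℝ≥0∞} (hP : Phi G α w n β ≤ B)
    (hst : ∑ d ∈ range ((G ^ 4) ^ 2), Phi G α w (n + 1) (β + (d : ℝ) / ((G : ℝ) ^ 4) ^ (2 * n + 2))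
      ≤ (((G ^ 4) ^ 2 : ℕ) : ℝ≥0∞) * ((1 / 4) * Phi G α w n β + c))
    (hB : 2 * ((1 / 4) * B + c) ≤ B) :
    ∃ d : ℕ, d < (G ^ 4) ^ 2 ∧
      BA ((G : ℝ) ^ 4) (n + 1) (β + (d : ℝ) / ((G : ℝ) ^ 4) ^ (2 * n + 2)) ∧
      Phi G α w (n + 1) (β + (d : ℝ) / ((G : ℝ) ^ 4) ^ (2 * n + 2)) ≤ B := by
  have hD8 : 8 ≤ G ^ 4 := by
    calc 8 ≤ G := by omega
      _ = G ^ 1 := (pow_one G).symm
      _ ≤ G ^ 4 := Nat.pow_le_pow_right (by omega) (by norm_num)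
  have hcast : ((G ^ 4 : ℕ) : ℝ) = (G : ℝ) ^ 4 := by push_cast; ring
  obtain ⟨s, hs, hs2⟩ := hBAK (G ^ 4) n β hD8 (by rw [hcast]; exact hBA)
  rw [hcast] at hs2
  set D := G ^ 4 with hD
  set T := range (D ^ 2) \ s with hT
  have hcard : D ^ 2 ≤ 2 * T.card := by
    have h1 : (range (D ^ 2)).card - s.card ≤ T.card := Finset.le_card_sdiff _ _
    rw [Finset.card_range] at h1
    have h2 : 4 * D + 8 ≤ D ^ 2 := by nlinarith
    omega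
  have hTne : T.Nonempty := by
    rw [← Finset.card_pos]
    have : 0 < D ^ 2 := by positivity
    omega
  have hsum : ∑ d ∈ T, Phi G α w (n + 1) (β + (d : ℝ) / ((G : ℝ) ^ 4) ^ (2 * n + 2))
      ≤ ∑ d ∈ T, 2 * ((1 / 4) * B + c) := by
    rw [Finset.sum_const, nsmul_eq_mul]
    calc _ ≤ ∑ d ∈ range (D ^ 2), Phi G α w (n + 1) (β + (d : ℝ) / ((G : ℝ) ^ 4) ^ (2 * n + 2)) :=
          Finset.sum_le_sum_of_subset Finset.sdiff_subset
      _ ≤ ((D ^ 2 : ℕ) : ℝ≥0∞) * ((1 / 4) * Phi G α w n β + c) := hst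
      _ ≤ ((2 * T.card : ℕ) : ℝ≥0∞) * ((1 / 4) * B + c) := by
          gcongr
      _ = _ := by push_cast; ring
  obtain ⟨d, hdT, hd⟩ := ENNReal.exists_le_of_sum_le hTne hsum
  have hd1 : d ∈ range (D ^ 2) := (Finset.mem_sdiff.1 hdT).1
  have hd2 : d ∉ s := (Finset.mem_sdiff.1 hdT).2
  exact ⟨d, Finset.mem_range.1 hd1, hs2 d (Finset.mem_range.1 hd1) hd2, hd.trans hB⟩

/-- limits of digit sequences -/
lemma digits {D : ℝ} (hD : 1 < D) (b : ℕ → ℝ) (dg : ℕ → ℕ) (hd : ∀ n, (dg n : ℝ) ≤ D ^ 2 - 1)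
    (hb : ∀ n, b (n + 1) = b n + (dg n : ℝ) / D ^ (2 * n + 2)) :
    ∃ β : ℝ, ∀ n, |β - b n| ≤ 1 / D ^ (2 * n) := by
  have hD0 : 0 < D := by linarith
  have hmono : Monotone b := by
    refine monotone_nat_of_le_succ fun n => ?_
    rw [hb n]
    have : 0 ≤ (dg n : ℝ) / D ^ (2 * n + 2) := by positivity
    linarith
  have hanti : Antitone (fun n => b n + 1 / D ^ (2 * n)) := by
    refine antitone_nat_of_succ_le fun n => ?_
    have h1 : (dg n : ℝ) / D ^ (2 * n + 2) ≤ (D ^ 2 - 1) / D ^ (2 * n + 2) := by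
      have := hd n
      gcongr
    have h2 : (D ^ 2 - 1) / D ^ (2 * n + 2) = 1 / D ^ (2 * n) - 1 / D ^ (2 * (n + 1)) := by
      rw [show 2 * (n + 1) = 2 * n + 2 by ring, pow_add]
      field_simp
    rw [hb n]
    linarith
  have hle : b ≤ fun n => b n + 1 / D ^ (2 * n) := by
    intro n
    have : 0 ≤ 1 / D ^ (2 * n) := by positivity
    simp only; linarith
  have hmem := Monotone.ciSup_mem_iInter_Icc_of_antitone hmono hanti hle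
  refine ⟨⨆ n, b n, fun n => ?_⟩
  have := Set.mem_iInter.1 hmem n
  rw [Set.mem_Icc] at this
  have h3 := this.1
  have h4 := this.2
  rw [abs_le]
  have : 0 ≤ 1 / D ^ (2 * n) := by positivity
  constructor <;> linarith

theorem ind (h1 : SV1) (h2 : SV0) (h3 : SW1) (h4 : SW0) (h5 : BAK) (h6 : INIT) (h7 : WGT) :
    INDC := by
  intro L K G c0 α hL hLK hG hc0 hc01 hbad
  obtain ⟨M1, hM1, H1⟩ := h1 G c0 hG hc0 hc01
  obtain ⟨M2, hM2, H2⟩ := h2 G c0 hG hc0 hc01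
  obtain ⟨M3, hM3, H3⟩ := h3 G c0 hG hc0 hc01
  obtain ⟨M4, hM4, H4⟩ := h4 G c0 hG hc0 hc01
  obtain ⟨w, hw0, hw2, hwL, Mw, hMw⟩ := h7 L K hL hLK
  obtain ⟨i1, i2⟩ := h6 G c0 α hG hc0 hbad
  set m : ℝ≥0∞ := ENNReal.ofReal (M1 + M2 + M3 + M4) with hm
  have m1 : ENNReal.ofReal M1 ≤ m := ENNReal.ofReal_le_ofReal (by linarith)
  have m2 : ENNReal.ofReal M2 ≤ m := ENNReal.ofReal_le_ofReal (by linarith)
  have m3 : ENNReal.ofReal M3 ≤ m := ENNReal.ofReal_le_ofReal (by linarith)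
  have m4 : ENNReal.ofReal M4 ≤ m := ENNReal.ofReal_le_ofReal (by linarith)
  have hGr : (1000 : ℝ) ≤ (G : ℝ) := by exact_mod_cast hG
  set c : ℝ≥0∞ := 12 * m * ENNReal.ofReal Mw with hc
  set B : ℝ≥0∞ := Phi G α w 0 0 + 4 * c with hB
  have hBtop : B ≠ ⊤ := by
    have e0 : Phi G α w 0 0 ≠ ⊤ := by
      simp only [Phi, FF, zero_add, Finset.sum_range_one, Nat.sub_self]
      exact ENNReal.mul_ne_top ENNReal.ofReal_ne_top (ENNReal.add_ne_top.2 ⟨i1.ne, i2.ne⟩)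
    have e1 : c ≠ ⊤ := ENNReal.mul_ne_top (ENNReal.mul_ne_top (by norm_num)
      ENNReal.ofReal_ne_top) ENNReal.ofReal_ne_top
    exact ENNReal.add_ne_top.2 ⟨e0, ENNReal.mul_ne_top (by norm_num) e1⟩
  have hBB : 2 * ((1 / 4) * B + c) ≤ B := by
    have q4 : (1 / 4 : ℝ≥0∞) * 4 = 1 := by
      rw [one_div, ENNReal.inv_mul_cancel (by norm_num) (by norm_num)]
    have q2 : 2 * (1 / 4 : ℝ≥0∞) ≤ 1 := by
      calc 2 * (1 / 4 : ℝ≥0∞) ≤ 4 * (1 / 4) := by gcongr; norm_num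
        _ = 1 := by rw [mul_comm]; exact q4
    calc 2 * ((1 / 4) * B + c) = 2 * (1 / 4) * Phi G α w 0 0 + 2 * ((1 / 4) * 4 * c) + 2 * c := by
          rw [hB]; ring
      _ = 2 * (1 / 4) * Phi G α w 0 0 + 4 * c := by rw [q4]; ring
      _ ≤ 1 * Phi G α w 0 0 + 4 * c := by gcongr
      _ = B := by rw [one_mul]
  have hstep : ∀ n β, BA ((G : ℝ) ^ 4) n β ∧ Phi G α w n β ≤ B → ∃ d : ℕ, d < (G ^ 4) ^ 2 ∧
      (BA ((G : ℝ) ^ 4) (n + 1) (β + (d : ℝ) / ((G : ℝ) ^ 4) ^ (2 * n + 2)) ∧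
      Phi G α w (n + 1) (β + (d : ℝ) / ((G : ℝ) ^ 4) ^ (2 * n + 2)) ≤ B) := by
    rintro n β ⟨hBA, hP⟩
    exact pick h5 hG hBA hP
      (step hw0 hw2 hMw (fun j hj => vert hbad H1 H3 m1 m3 hBA hj)
        (horiz hbad H2 H4 m2 m4 hBA)) hBB
  choose f hf1 hf2 using hstep
  have h0 : BA ((G : ℝ) ^ 4) 0 0 ∧ Phi G α w 0 0 ≤ B := by
    refine ⟨fun q p hq => ?_, le_self_add⟩
    have hq1 : (1 : ℝ) ≤ (q : ℝ) := by exact_mod_cast hq
    have hG4 : (1 : ℝ) ≤ (G : ℝ) ^ 4 := one_le_pow₀ (by linarith)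
    refine le_max_of_le_left ?_
    rw [pow_zero, div_one]
    refine le_trans ?_ hq1
    rw [div_le_one (by positivity)]
    linarith
  let st : (n : ℕ) → {β : ℝ // BA ((G : ℝ) ^ 4) n β ∧ Phi G α w n β ≤ B} := fun n =>
    Nat.rec ⟨0, h0⟩ (fun n x => ⟨x.1 + ((f n x.1 x.2 : ℕ) : ℝ) / ((G : ℝ) ^ 4) ^ (2 * n + 2),
      hf2 n x.1 x.2⟩) n
  have hD1 : (1 : ℝ) < (G : ℝ) ^ 4 := one_lt_pow₀ (by linarith) (by norm_num)
  obtain ⟨β, hβ⟩ := digits hD1 (fun n => (st n).1) (fun n => f n (st n).1 (st n).2)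
    (fun n => by
      have := hf1 n (st n).1 (st n).2
      have h : ((f n (st n).1 (st n).2 : ℕ) : ℝ) + 1 ≤ (((G ^ 4) ^ 2 : ℕ) : ℝ) := by
        exact_mod_cast this
      push_cast at h
      linarith) (fun n => rfl)
  refine ⟨fun n => (st n).1, β, B.toReal, ENNReal.toReal_nonneg, hβ, ?_⟩
  intro j t k hk
  rw [ENNReal.ofReal_toReal hBtop]
  have hP := (st (j + t)).2.2
  refine le_trans ?_ hP
  have hw1 : (1 : ℝ≥0∞) ≤ ENNReal.ofReal (w (j + t + j)) := by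
    rw [← ENNReal.ofReal_one]
    refine ENNReal.ofReal_le_ofReal ?_
    have := hwL k
    rwa [hk, show 2 * j + t = j + t + j by ring] at this
  calc FV G α j t (st (j + t)).1 = 1 * FV G α j t (st (j + t)).1 := (one_mul _).symm
    _ ≤ ENNReal.ofReal (w (j + t + j)) * FF G α j (j + t - j) (st (j + t)).1 := by
        rw [Nat.add_sub_cancel_left]
        exact mul_le_mul' hw1 le_self_add
    _ ≤ Phi G α w (j + t) (st (j + t)).1 := by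
        rw [Phi]
        exact Finset.single_le_sum
          (f := fun i => ENNReal.ofReal (w (j + t + i)) * FF G α i (j + t - i) (st (j + t)).1)
          (fun _ _ => bot_le) (Finset.mem_range.2 (by omega))

end Pool.Agent.W512.LW
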